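import Pool.Agent.Lib_helper16.Heads.Snake

/-!
Problem MP_5e85fc_lc. Every two-way pushdown automaton with `k` input heads, deterministic or
not, is equivalent to one with the same number `k` of heads whose heads all follow one trajectory
fixed in advance, depending only on the input length: the `k`-tuple of head positions runs back
and forth through the grid `{0, …, |w| + 1}^k` along the boustrophedon path. Moreover the stack
is never popped after a push in the same run through the grid.
-/

set_option autoImplicit false

namespace Pool.Agent.Lib_helper16.Variants.DataIndependentHeads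

open Pool.Agent.Heads

/-- For every `k ≥ 1`: a language is accepted by a two-way pushdown automaton with `k` heads
(deterministic or nondeterministic) iff it is accepted by one of the same kind, with the same
number of heads, whose heads run back and forth through the grid along the boustrophedon path
and which never pops after a push in the same run through the grid. -/
theorem result (k : ℕ) (hk : 1 ≤ k) (α : Type) (L : Set (List α)) :
    ((∃ M : PDA α k, M.lang = L) ↔
      ∃ M : PDA α k, M.lang = L ∧ M.GridSweeping ∧ M.GridPopThenPush) ∧
    ((∃ M : PDA α k, M.Det ∧ M.lang = L) ↔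
      ∃ M : PDA α k, M.Det ∧ M.lang = L ∧ M.GridSweeping ∧ M.GridPopThenPush) := by
  refine ⟨⟨?_, ?_⟩, ⟨?_, ?_⟩⟩
  · rintro ⟨M, rfl⟩
    obtain ⟨M', h1, -, h3, h4⟩ := snakeNormal k hk M
    exact ⟨M', h1, h3, h4⟩
  · rintro ⟨M, h, -, -⟩
    exact ⟨M, h⟩
  · rintro ⟨M, hd, rfl⟩
    obtain ⟨M', h1, h2, h3, h4⟩ := snakeNormal k hk M
    exact ⟨M', h2 hd, h1, h3, h4⟩
  · rintro ⟨M, hd, h, -, -⟩
    exact ⟨M, hd, h⟩

end Pool.Agent.Lib_helper16.Variants.DataIndependentHeads
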