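import Pool.Agent.TGC.FinP

/-!
Problem MP_5e85fc_lc. Real-time deterministic context-free languages against two-way multihead
finite automata, deterministic or probabilistic: there is a language (a real-time evaluation of
nested sums and products modulo 2) which is accepted by a one-way real-time deterministic pushdown
automaton with one head, while every two-way finite automaton with `k` heads, deterministic or
probabilistic, needs time `Ω(n ^ (1 + 1 / k) / log n)` for it.
-/

set_option autoImplicit false

namespace Pool.Agent.Lib_helper16.Variants.DeterministicTimeGap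

open Pool.Agent.Heads Filter Asymptotics

/-- The finite automaton `M` accepts `w` in at most `t` steps: some computation on `w` is in an
accepting state after at most `t` steps. -/
def AcceptsIn {α : Type} {k : ℕ} (M : FA α k) (w : List α) (t : ℕ) : Prop :=
  ∃ i ≤ t, ∃ c, ReachN (M.Step w) (M.start, fun _ => 0) i c ∧ c.1 ∈ M.accept

/-- `L` is accepted by a two-way deterministic multihead finite automaton in time `f`: every
word `w` in `L` is accepted in at most `f |w|` steps. -/
def DFATime (f : ℕ → ℝ) {α : Type} (L : Set (List α)) : Prop :=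
  ∃ k, 1 ≤ k ∧ ∃ M : FA α k, M.Det ∧ M.lang = L ∧
    ∀ w ∈ L, ∃ t : ℕ, (t : ℝ) ≤ f w.length ∧ AcceptsIn M w t

/-- A two-way probabilistic finite automaton with `k` heads. In each step a random element of the
finite set `R` is drawn (uniformly, independently of the other steps); it, the state and the
scanned symbols determine the next state and the moves of the heads (`none`: no step). -/
structure PFA (α : Type) (k : ℕ) where
  Q : Type
  R : Type
  finQ : Finite Q
  finR : Finite R
  neR : Nonempty R
  start : Q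
  accept : Set Q
  δ : R → Q → (Fin k → Sym α) → Option (Q × (Fin k → Dir))

/-- The state and the positions of the heads after `i` steps on the word `w` (`i ≤ t`), if the
random elements of the first `t` steps are `r 0, …, r (t - 1)`. All heads start on the left
endmarker. -/
def PFA.conf {α : Type} {k : ℕ} (M : PFA α k) (w : List α) {t : ℕ} (r : Fin t → M.R) :
    ℕ → Option (M.Q × (Fin k → ℕ))
  | 0 => some (M.start, fun _ => 0)
  | i + 1 => if h : i < t then (M.conf w r i).bind fun c =>
      (M.δ (r ⟨i, h⟩) c.1 fun a => tape w (c.2 a)).map fun qd =>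
        (qd.1, fun a => move (w.length + 1) (c.2 a) (qd.2 a)) else none

/-- With the random elements `r`, the automaton is in an accepting state after at most `t`
steps. -/
def PFA.Acc {α : Type} {k : ℕ} (M : PFA α k) (w : List α) {t : ℕ} (r : Fin t → M.R) : Prop :=
  ∃ i ≤ t, ∃ c, M.conf w r i = some c ∧ c.1 ∈ M.accept

/-- The probability that `M` accepts `w` in at most `t` steps. -/
noncomputable def PFA.pr {α : Type} {k : ℕ} (M : PFA α k) (w : List α) (t : ℕ) : ℝ :=
  (Nat.card {r : Fin t → M.R // M.Acc w r} : ℝ) / (Nat.card M.R : ℝ) ^ t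

open scoped Classical in
/-- The probability that `M` is right about the membership of `w` in `L` in time `t`: the
probability that `M` accepts `w` in at most `t` steps if `w` is in `L`, and the probability that
it does not if `w` is not in `L`. -/
noncomputable def PFA.right {α : Type} {k : ℕ} (M : PFA α k) (L : Set (List α)) (w : List α)
    (t : ℕ) : ℝ := if w ∈ L then M.pr w t else 1 - M.pr w t

/-- `L` is accepted by a two-way probabilistic multihead finite automaton in time `f` with error
at most `1 / 3`: the probability that it accepts `w` in at most `f |w|` steps is at least `2 / 3`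
if `w` is in `L`, and at most `1 / 3` otherwise. -/
def PFATime (f : ℕ → ℝ) {α : Type} (L : Set (List α)) : Prop :=
  ∃ k, 1 ≤ k ∧ ∃ M : PFA α k, ∀ w : List α,
    (w ∈ L → 2 / 3 ≤ M.pr w ⌊f w.length⌋₊) ∧ (w ∉ L → M.pr w ⌊f w.length⌋₊ ≤ 1 / 3)

/-! ### The library versions of the definitions -/

/-- The same automaton. -/
def PFA.lib {α : Type} {k : ℕ} (M : PFA α k) : Pool.Agent.TGC.PFA α k :=
  ⟨M.Q, M.R, M.finQ, M.finR, M.neR, M.start, M.accept, M.δ⟩

lemma lib_conf {α : Type} {k : ℕ} (M : PFA α k) (w : List α) {t : ℕ} (r : Fin t → M.R) (i : ℕ) :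
    M.lib.cf w r i = M.conf w r i := by
  induction i with
  | zero => rfl
  | succ i ih =>
    unfold PFA.conf
    rw [← ih]
    rfl

lemma lib_acc {α : Type} {k : ℕ} (M : PFA α k) (w : List α) {t : ℕ} (r : Fin t → M.R) :
    M.lib.Acc w r ↔ M.Acc w r := by
  constructor
  · rintro ⟨i, hi, c, h1, h2⟩
    exact ⟨i, hi, c, by rw [← lib_conf]; exact h1, h2⟩
  · rintro ⟨i, hi, c, h1, h2⟩
    exact ⟨i, hi, c, by rw [lib_conf]; exact h1, h2⟩

lemma lib_pr {α : Type} {k : ℕ} (M : PFA α k) (w : List α) (t : ℕ) :
    M.lib.pr w t = M.pr w t := by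
  unfold PFA.pr Pool.Agent.TGC.PFA.pr
  have e : Nat.card {r : Fin t → M.R // M.Acc w r} =
      Nat.card {r : Fin t → M.lib.R // M.lib.Acc w r} :=
    Nat.card_congr (Equiv.subtypeEquivRight fun r => (lib_acc M w r).symm)
  rw [e]
  rfl

lemma lib_right {α : Type} {k : ℕ} (M : PFA α k) (L : Set (List α)) (w : List α) (t : ℕ) :
    M.lib.right L w t = M.right L w t := by
  unfold PFA.right Pool.Agent.TGC.PFA.right
  rw [lib_pr]

/-- There is a language `L` over a finite alphabet with the following properties.
(1) `L` is accepted by a deterministic one-way pushdown automaton with one head; it moves right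
at every step until it is on the right endmarker, and makes at most `|w| + 2` steps.
(2) For every `k ≥ 1` and every two-way deterministic `k`-head finite automaton `M` accepting
`L` there is `c > 0` such that, for all large `n`, `M` needs at least
`c * n ^ (1 + 1 / k) / log n` steps to accept some word of length `n` in `L`.
(3) For every `k ≥ 1` and every two-way probabilistic `k`-head finite automaton `M` there is
`c > 0` such that, for all large `n` and all `t`: if, in time `t`, `M` is right about the
membership in `L` with probability more than `1 / 2 + exp (-c * n ^ (1 / k))` for each word of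
length `n`, then `t ≥ c * n ^ (1 + 1 / k) / log n`.
(4) So, if `f(n) = O(n ^ (1 + ε))` for all `ε > 0`, then `L` is not accepted in time `f` by any
two-way multihead finite automaton, deterministic or probabilistic with error at most `1 / 3`.
(5) The lower bounds hold on average, and for nonuniform automata: for every `k ≥ 1` there is
`c > 0` such that for all large `n` there is a nonempty set `H` of words of length `n` with the
following property. Let `(n + t) * (s + log n) ≤ c * n ^ (1 + 1 / k)`, and let `M` be a two-way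
`k`-head finite automaton with at most `2 ^ s` states. If `M` is deterministic, then at most
`(1 / 2 + exp (-c * n ^ (1 / k))) * |H|` words `w` in `H` satisfy: `w` is in `L` if and only if
`M` accepts `w` in at most `t` steps. If `M` is probabilistic, then the average over the words of
`H` of the probability that `M` is right in time `t` is at most `1 / 2 + exp (-c * n ^ (1 / k))`. -/
theorem result : ∃ (α : Type) (_ : Finite α) (L : Set (List α)),
    (∃ M : PDA α 1, M.Det ∧ M.lang = L ∧
      ∀ w t c, M.Reach w t c → c.pos 0 = min t (w.length + 1) ∧ t ≤ w.length + 2) ∧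
    (∀ k : ℕ, 1 ≤ k → ∀ M : FA α k, M.Det → M.lang = L → ∃ c : ℝ, 0 < c ∧ ∀ᶠ n : ℕ in atTop,
      ∃ w ∈ L, w.length = n ∧
        ∀ t, AcceptsIn M w t → c * (n : ℝ) ^ (1 + 1 / (k : ℝ)) / Real.log n ≤ t) ∧
    (∀ k : ℕ, 1 ≤ k → ∀ M : PFA α k, ∃ c : ℝ, 0 < c ∧ ∀ᶠ n : ℕ in atTop, ∀ t : ℕ,
      (∀ w : List α, w.length = n →
        1 / 2 + Real.exp (-(c * (n : ℝ) ^ (1 / (k : ℝ)))) < M.right L w t) →
      c * (n : ℝ) ^ (1 + 1 / (k : ℝ)) / Real.log n ≤ t) ∧
    (∀ f : ℕ → ℝ, (∀ ε : ℝ, 0 < ε → f =O[atTop] fun n : ℕ => (n : ℝ) ^ (1 + ε)) →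
      ¬ DFATime f L ∧ ¬ PFATime f L) ∧
    (∀ k : ℕ, 1 ≤ k → ∃ c : ℝ, 0 < c ∧ ∀ᶠ n : ℕ in atTop,
      ∃ H : Finset (List α), H.Nonempty ∧ (∀ w ∈ H, w.length = n) ∧
        ∀ s t : ℕ, ((n : ℝ) + t) * (s + Real.log n) ≤ c * (n : ℝ) ^ (1 + 1 / (k : ℝ)) →
          (∀ M : FA α k, M.Det → Nat.card M.Q ≤ 2 ^ s →
            ({w | w ∈ H ∧ (w ∈ L ↔ AcceptsIn M w t)}.ncard : ℝ) ≤
              (1 / 2 + Real.exp (-(c * (n : ℝ) ^ (1 / (k : ℝ))))) * H.card) ∧
          (∀ M : PFA α k, Nat.card M.Q ≤ 2 ^ s →
            ∑ w ∈ H, M.right L w t ≤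
              (1 / 2 + Real.exp (-(c * (n : ℝ) ^ (1 / (k : ℝ))))) * H.card)) := by
  obtain ⟨α, hα, L, -, g2, g3, g4, g5, g6⟩ := Pool.Agent.TGC.mainP 1 le_rfl (by norm_num)
  have e1 : ((1 : ℚ) : ℝ) = 1 := by norm_num
  have e2 : ∀ k : ℕ, (1 : ℝ) + (2 - 1) / (k : ℝ) = 1 + 1 / (k : ℝ) := by
    intro k; norm_num
  have e3 : ∀ k : ℕ, (1 : ℝ) - 1 + (2 - 1) / (k : ℝ) = 1 / (k : ℝ) := by
    intro k; norm_num
  rw [e1] at g3 g4 g5 g6
  refine ⟨α, hα, L, g2 rfl, ?_, ?_, ?_, ?_⟩
  · intro k hk M hM hL
    have h := g3 k hk M hM hL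
    simp only [e2] at h
    exact h
  · intro k hk M
    obtain ⟨d, hd, h⟩ := g5 k hk M.lib
    simp only [e2, e3] at h
    refine ⟨d, hd, ?_⟩
    filter_upwards [h] with n hn t ht
    exact hn t fun w hw => by rw [lib_right]; exact ht w hw
  · intro f hf
    obtain ⟨h3, h4⟩ := g4 f hf
    refine ⟨h3, ?_⟩
    rintro ⟨k, hk, M, hM⟩
    refine h4 ⟨k, hk, M.lib, fun w => ?_⟩
    obtain ⟨a1, a2⟩ := hM w
    rw [← lib_pr] at a1 a2
    exact ⟨a1, a2⟩
  · intro k hk
    obtain ⟨d, hd, h⟩ := g6 k hk
    simp only [e2, e3] at h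
    refine ⟨d, hd, ?_⟩
    filter_upwards [h] with n hn
    obtain ⟨H, hne, hlen, hH⟩ := hn
    refine ⟨H, hne, hlen, fun s t hst => ?_⟩
    obtain ⟨b1, b2⟩ := hH s t hst
    refine ⟨b1, fun M hM => ?_⟩
    have := b2 M.lib hM
    rw [Finset.sum_congr rfl fun w _ => lib_right M L w t] at this
    exact this

end Pool.Agent.Lib_helper16.Variants.DeterministicTimeGap
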