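import Pool.Agent.Lib_helper16.Heads.Obl

/-!
Problem MP_5e85fc_lc. Every nondeterministic two-way pushdown automaton with `k` heads is
equivalent to a deterministic one with `6 k` heads whose head positions and stack height depend
only on the length of the input and on the time.
-/

set_option autoImplicit false

namespace Pool.Agent.Lib_helper16.Variants.ObliviousPushdown

open Pool.Agent.Heads

/-- Every language accepted by a nondeterministic two-way pushdown automaton with `k ≥ 1` heads
is accepted by a deterministic one with `6 k` heads for which the head positions and the height
of the stack after `t` steps depend only on `t` and on the length of the input. -/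
theorem result (k : ℕ) (hk : 1 ≤ k) (α : Type) (M : PDA α k) :
    ∃ M' : PDA α (6 * k), M'.Det ∧ M'.lang = M.lang ∧ M'.Oblivious := by
  obtain ⟨k, rfl⟩ : ∃ j, k = j + 1 := ⟨k - 1, by omega⟩
  obtain ⟨M', h1, h2, h3⟩ := oblivious α k M
  exact ⟨M', h2, h1, h3⟩

end Pool.Agent.Lib_helper16.Variants.ObliviousPushdown
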