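import Pool.Agent.Lib_helper16.Poly.Final

/-!
Problem MP_5e85fc_lc. The time-bounded analogues of the two questions have a negative answer for
all time bounds `O(n ^ c)`, `1 ≤ c < 2` rational, and for all constructible time bounds `T` with
`n + 2 ≤ T(n) ≤ n ^ (2 - ε)`: deterministic multihead pushdown automata in time `T` accept
languages which nondeterministic multihead finite automata do not accept in time
`o(T(n) log n)`.
-/

set_option autoImplicit false

namespace Pool.Agent.Results.MP_5e85fc_lc.PolynomialTimeSeparation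

open Pool.Agent.Heads Pool.Agent.Poly Filter Asymptotics

/-- `L` is accepted by a two-way deterministic multihead pushdown automaton in time `f`: all
computations on a word `w` have at most `f |w|` steps. -/
def DPDATime (f : ℕ → ℝ) {α : Type} (L : Set (List α)) : Prop :=
  ∃ k, 1 ≤ k ∧ ∃ M : PDA α k, M.Det ∧ M.lang = L ∧
    ∀ w t c, M.Reach w t c → (t : ℝ) ≤ f w.length

/-- `L` is accepted by a two-way nondeterministic multihead finite automaton in time `f`: every
word `w` in `L` has an accepting computation with at most `f |w|` steps. -/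
def NFATime (f : ℕ → ℝ) {α : Type} (L : Set (List α)) : Prop :=
  ∃ k, 1 ≤ k ∧ ∃ A : FA α k, A.lang = L ∧
    ∀ w ∈ L, ∃ t : ℕ, ∃ c, (t : ℝ) ≤ f w.length ∧
      ReachN (A.Step w) (A.start, fun _ => 0) t c ∧ c.1 ∈ A.accept

/-- `T` is the running time of a two-way deterministic multihead finite automaton on unary words:
its computation on the word of length `n` has exactly `T n` steps. -/
def Constructible (T : ℕ → ℕ) : Prop :=
  ∃ k, ∃ C : FA Unit k, C.Det ∧ ∀ n,
    (∃ c, ReachN (C.Step (List.replicate n ())) (C.start, fun _ => 0) (T n) c) ∧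
    ∀ t c, ReachN (C.Step (List.replicate n ())) (C.start, fun _ => 0) t c → t ≤ T n

lemma general' (T : ℕ → ℕ) (hC : Constructible T) (h0 : ∀ n, n + 2 ≤ T n)
    (ε : ℝ) (hε : 0 < ε) (hT : ∀ᶠ n : ℕ in atTop, (T n : ℝ) ≤ (n : ℝ) ^ (2 - ε)) :
    ∃ (α : Type) (_ : Finite α) (L : Set (List α)), DPDATime (fun n => T n) L ∧
      ∀ f : ℕ → ℝ, f =o[atTop] (fun n : ℕ => (T n : ℝ) * Real.log n) → ¬ NFATime f L := by
  obtain ⟨k, C, hC⟩ := hC
  obtain ⟨g, kk, hkk, M, h1, h2, h3, h4⟩ := general T hC h0 ε hε hT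
  refine ⟨Lt (2 * g + 1), inferInstance, LT g T, ⟨kk, hkk, M, h1, h2, ?_⟩, ?_⟩
  · intro w t c h
    exact Nat.cast_le.2 (h3 w t c h)
  · rintro f hf ⟨k', hk', A, hA, htime⟩
    exact h4 f hf k' hk' A hA htime

/-- (1) For every time bound `T` which is the running time of a deterministic multihead finite
automaton on unary words and satisfies `n + 2 ≤ T(n)` for all `n` and `T(n) ≤ n ^ (2 - ε)` for
large `n`, `ε > 0`, some language is accepted by a deterministic multihead pushdown automaton in
time `T`, but by no nondeterministic multihead finite automaton in time `f = o(T(n) log n)`.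
(2) For every rational `1 ≤ c < 2` some language is accepted by a deterministic multihead
pushdown automaton in time `O(n ^ c)`, but by no nondeterministic multihead finite automaton in
time `f = o(n ^ c log n)`. -/
theorem result :
    (∀ T : ℕ → ℕ, Constructible T → (∀ n, n + 2 ≤ T n) →
      ∀ ε : ℝ, 0 < ε → (∀ᶠ n : ℕ in atTop, (T n : ℝ) ≤ (n : ℝ) ^ (2 - ε)) →
      ∃ (α : Type) (_ : Finite α) (L : Set (List α)), DPDATime (fun n => T n) L ∧
        ∀ f : ℕ → ℝ, f =o[atTop] (fun n : ℕ => (T n : ℝ) * Real.log n) → ¬ NFATime f L) ∧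
    (∀ c : ℚ, 1 ≤ c → c < 2 →
      ∃ (α : Type) (_ : Finite α) (L : Set (List α)),
        (∃ C : ℝ, DPDATime (fun n => C * ((n : ℝ) + 1) ^ (c : ℝ)) L) ∧
        ∀ f : ℕ → ℝ, f =o[atTop] (fun n : ℕ => (n : ℝ) ^ (c : ℝ) * Real.log n) →
          ¬ NFATime f L) := by
  refine ⟨general', ?_⟩
  intro c hc1 hc2
  obtain ⟨T, C, K, h1, h2, hK, h3, h4, h5⟩ := exists_clock_rat c hc1 hc2
  have hc2' : (c : ℝ) < 2 := by exact_mod_cast hc2
  obtain ⟨α, hα, L, ⟨k, hk, M, g1, g2, g3⟩, g4⟩ := general' T ⟨3, C, h1⟩ h2 ((2 - (c : ℝ)) / 2)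
    (by linarith) (by
      filter_upwards [eventually_le_rpow K c hc2', eventually_gt_atTop 0] with n hn hn0
      exact (h4 n hn0).trans hn)
  refine ⟨α, hα, L, ⟨K, k, hk, M, g1, g2, fun w t cc h => (g3 w t cc h).trans (h3 _)⟩, ?_⟩
  intro f hf
  apply g4
  refine hf.trans_isBigO ?_
  refine IsBigO.of_bound K (Eventually.of_forall fun n => ?_)
  have hlog : 0 ≤ Real.log n := Real.log_natCast_nonneg n
  rw [Real.norm_eq_abs, Real.norm_eq_abs, abs_of_nonneg (by positivity),
    abs_of_nonneg (by positivity)]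
  calc (n : ℝ) ^ (c : ℝ) * Real.log n ≤ (K * T n) * Real.log n :=
        mul_le_mul_of_nonneg_right (h5 n) hlog
    _ = K * (T n * Real.log n) := by ring

end Pool.Agent.Results.MP_5e85fc_lc.PolynomialTimeSeparation
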