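import Pool.Agent.Lib_helper16.Heads.Obl

/-!
Problem MP_5e85fc_lc. Both questions (is 2:multi-XFA = 2:multi-XPDA, for X = D and for X = N) are
reduced to one class of languages, those of the deterministic sweeping one-head pushdown automata
which never pop after a push in the same sweep.
-/

set_option autoImplicit false

namespace Pool.Agent.Lib_helper16.Variants.SweepingReduction

open Pool.Agent.Heads

variable {α : Type}

/-- The class 2:multi-NFA. -/
def MultiNFA (L : Set (List α)) : Prop := ∃ k, 1 ≤ k ∧ ∃ M : FA α k, M.lang = L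

/-- The class 2:multi-DFA. -/
def MultiDFA (L : Set (List α)) : Prop := ∃ k, 1 ≤ k ∧ ∃ M : FA α k, M.Det ∧ M.lang = L

/-- The class 2:multi-NPDA. -/
def MultiNPDA (L : Set (List α)) : Prop := ∃ k, 1 ≤ k ∧ ∃ M : PDA α k, M.lang = L

/-- The class 2:multi-DPDA. -/
def MultiDPDA (L : Set (List α)) : Prop := ∃ k, 1 ≤ k ∧ ∃ M : PDA α k, M.Det ∧ M.lang = L

/-- A finite automaton as a pushdown automaton. -/
lemma fa_pda {k : ℕ} (A : FA α k) : ∃ M : PDA α k, M.lang = A.lang ∧ (A.Det → M.Det) := by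
  refine ⟨Mach.toPDA A.toMach, ?_, fun h => A.det_toMach h⟩
  exact (Mach.lang_toPDA A.toMach).trans A.lang_toMach

/-- The reduction. -/
lemma back (k : ℕ) (hk : 1 ≤ k) [Finite α] (M : PDA α k) : ∃ (β : Type) (_ : Finite β)
    (M' : PDA β 1), (M.Det → M'.Det) ∧ M'.Sweeping ∧ M'.PopThenPush ∧
      ∀ (m : ℕ) (A : FA β m), A.lang = M'.lang →
        ∃ A' : FA α (m * k), A'.lang = M.lang ∧ (A.Det → A'.Det) := by
  obtain ⟨k, rfl⟩ : ∃ j, k = j + 1 := ⟨k - 1, by omega⟩
  obtain ⟨M', h1, h2, h3, h4⟩ := encode k M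
  refine ⟨(TT α k).B, finite_B α k, M', h2, h3, h4, ?_⟩
  intro m A hA
  obtain ⟨A', h5, h6⟩ := decode k m A
  refine ⟨A', ?_, h6⟩
  ext w
  rw [h5 w, hA]
  exact h1 w

/-- Both questions are questions about one class of languages, those of the deterministic one-head
two-way pushdown automata which are sweeping and never pop after a push in the same sweep.
X = D: is this class contained in 2:multi-DFA? X = N: is it contained in 2:multi-NFA? -/
theorem result :
    ((∀ (α : Type) [Finite α] (L : Set (List α)), MultiDFA L ↔ MultiDPDA L) ↔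
      ∀ (α : Type) [Finite α] (M : PDA α 1), M.Det → M.Sweeping → M.PopThenPush →
        MultiDFA M.lang) ∧
    ((∀ (α : Type) [Finite α] (L : Set (List α)), MultiNFA L ↔ MultiNPDA L) ↔
      ∀ (α : Type) [Finite α] (M : PDA α 1), M.Det → M.Sweeping → M.PopThenPush →
        MultiNFA M.lang) := by
  refine ⟨⟨?_, ?_⟩, ⟨?_, ?_⟩⟩
  · intro h α _ M hd _ _
    exact (h α M.lang).2 ⟨1, le_rfl, M, hd, rfl⟩
  · intro h α _ L
    constructor
    · rintro ⟨k, hk, A, hd, rfl⟩
      obtain ⟨M, h1, h2⟩ := fa_pda A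
      exact ⟨k, hk, M, h2 hd, h1⟩
    · rintro ⟨k, hk, M, hd, rfl⟩
      obtain ⟨β, hβ, M', h1, h2, h3, h4⟩ := back k hk M
      obtain ⟨m, hm, A, hA, hL⟩ := h β M' (h1 hd) h2 h3
      obtain ⟨A', h5, h6⟩ := h4 m A hL
      exact ⟨m * k, Nat.mul_pos hm hk, A', h6 hA, h5⟩
  · intro h α _ M _ _ _
    exact (h α M.lang).2 ⟨1, le_rfl, M, rfl⟩
  · intro h α _ L
    constructor
    · rintro ⟨k, hk, A, rfl⟩
      obtain ⟨M, h1, -⟩ := fa_pda A
      exact ⟨k, hk, M, h1⟩
    · rintro ⟨k, hk, M, rfl⟩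
      obtain ⟨k, rfl⟩ : ∃ j, k = j + 1 := ⟨k - 1, by omega⟩
      obtain ⟨N, e1, e2, -⟩ := oblivious α k M
      obtain ⟨β, hβ, M', h1, h2, h3, h4⟩ := back (6 * (k + 1)) (by omega) N
      obtain ⟨m, hm, A, hL⟩ := h β M' (h1 e2) h2 h3
      obtain ⟨A', h5, -⟩ := h4 m A hL
      exact ⟨m * (6 * (k + 1)), Nat.mul_pos hm (by omega), A', h5.trans e1⟩

end Pool.Agent.Lib_helper16.Variants.SweepingReduction
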