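import Pool.Agent.Lib_helper16.Heads.AnBn

/-!
Problem MP_5e85fc_lc. The analogues of the two questions for grid-sweeping automata (all heads
follow the boustrophedon path of the grid of head positions) have a negative answer: for every
number of heads, and for deterministic and nondeterministic automata alike, grid-sweeping finite
automata accept exactly the regular languages, while already one head suffices a grid-sweeping
deterministic pushdown automaton for a nonregular language.
-/

set_option autoImplicit false

namespace Pool.Agent.Lib_helper16.Variants.SweepingSeparation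

open Pool.Agent.Heads

/-- (1) For every `k ≥ 1` and every finite alphabet, the languages accepted by grid-sweeping
nondeterministic `k`-head finite automata, and those accepted by grid-sweeping deterministic
ones, are exactly the regular languages. (2) For every `k ≥ 1` there is a grid-sweeping
deterministic `k`-head pushdown automaton accepting `{a^n b^n}`, and this language is not
regular. -/
theorem result :
    (∀ k : ℕ, 1 ≤ k → ∀ (α : Type) [Finite α] (L : Set (List α)),
      ((∃ A : FA α k, A.lang = L ∧ A.GridSweeping) ↔ Language.IsRegular (L : Language α)) ∧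
      ((∃ A : FA α k, A.Det ∧ A.lang = L ∧ A.GridSweeping) ↔
        Language.IsRegular (L : Language α))) ∧
    (∀ k : ℕ, 1 ≤ k → ∃ M : PDA Bool k, M.Det ∧ M.GridSweeping ∧
      M.lang = {w | ∃ n, w = List.replicate n true ++ List.replicate n false}) ∧
    ¬ Language.IsRegular
      ({w | ∃ n, w = List.replicate n true ++ List.replicate n false} : Language Bool) := by
  refine ⟨?_, ?_, anbn_not_regular⟩
  · intro k hk α _ L
    have h1 : ∀ A : FA α k, A.lang = L → A.GridSweeping →
        Language.IsRegular (L : Language α) := by
      rintro A rfl hA
      exact gridSweeping_regular A hk hA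
    have h2 : Language.IsRegular (L : Language α) →
        ∃ A : FA α k, A.Det ∧ A.lang = L ∧ A.GridSweeping := by
      rintro ⟨σ, _, M, hM⟩
      obtain ⟨A, h3, h4, h5⟩ := regular_gridSweeping M k hk
      exact ⟨A, h3, h4.trans hM, h5⟩
    refine ⟨⟨?_, ?_⟩, ⟨?_, h2⟩⟩
    · rintro ⟨A, h3, h4⟩
      exact h1 A h3 h4
    · intro h
      obtain ⟨A, -, h3, h4⟩ := h2 h
      exact ⟨A, h3, h4⟩
    · rintro ⟨A, -, h3, h4⟩
      exact h1 A h3 h4
  · intro k hk
    obtain ⟨M, h1, h2, h3, -⟩ := anbn_pda k hk
    exact ⟨M, h1, h3, h2⟩

end Pool.Agent.Lib_helper16.Variants.SweepingSeparation
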