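import Pool.Agent.Lib_helper16.TEP.BoundA

/-!
# Unambiguous thrifty branching programs for tree evaluation, fixed height

For every height the exponent of `k` can be taken to be `4 + ε`.
-/

namespace Pool.Agent.Lib_helper16.Variants.ThriftyFixedHeight

open Pool.Agent.Lib_helper16.TEP

/-- For every height `n + 1` and every `ε > 0` there is `K` such that every function `g` of the
value of the root of the full binary tree over the values `Fin k`, with values in a finite set
`R`, has unambiguous nondeterministic thrifty `k`-way branching programs with at most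
`K * |R| * k ^ (4 + ε)` states. -/
theorem result (n : ℕ) (ε : ℝ) (hε : 0 < ε) :
    ∃ K : ℝ, ∀ k : ℕ, 1 ≤ k → ∀ (R : Type) [Fintype R] (g : Fin k → R),
      ∃ B : NBP (Var k n) k R, B.Computes (fun I => g (value n I)) ∧ Thrifty B ∧
        B.Unambiguous ∧ (B.size : ℝ) ≤ K * Fintype.card R * (k : ℝ) ^ (4 + ε) :=
  thrifty_fixed_height n ε hε

end Pool.Agent.Lib_helper16.Variants.ThriftyFixedHeight
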