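import Pool.Agent.TEU.Bound

/-!
# Unambiguous thrifty branching programs for tree evaluation, all heights and alphabets
-/

namespace Pool.Agent.Lib_helper16.Variants.ThriftyTreeEvaluation

open Pool.Agent.Lib_helper16.TEP

/-- For every `ε > 0` there is a constant `C` such that for every height `h = n + 1`, every
`k ≥ 2` and every map `g` from the `k` values to a finite set `R`, the tree evaluation problem
(find `g` of the value of the root) has unambiguous nondeterministic thrifty `k`-way branching
programs with at most `|R| * k ^ (4 + ε) * 2 ^ (C * (h + √(h * log k * log (1 + log k))))` states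
(logarithms to the base 2). -/
theorem result (ε : ℝ) (hε : 0 < ε) :
    ∃ C : ℝ, ∀ n k : ℕ, 2 ≤ k → ∀ (R : Type) [Fintype R] (g : Fin k → R),
      ∃ B : NBP (Var k n) k R, B.Computes (fun I => g (value n I)) ∧ Thrifty B ∧ B.Unambiguous ∧
        (B.size : ℝ) ≤ Fintype.card R * (k : ℝ) ^ (4 + ε) * (2 : ℝ) ^ (C * (((n : ℝ) + 1) +
          √(((n : ℝ) + 1) * Real.logb 2 k * Real.logb 2 (1 + Real.logb 2 k)))) :=
  Pool.Agent.TEU.unified ε hε

end Pool.Agent.Lib_helper16.Variants.ThriftyTreeEvaluation
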