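import Pool.Agent.Lib_helper16.Time.Asymp
import Pool.Agent.Lib_helper16.Time.DyckPDA

/-!
Problem MP_5e85fc_lc. The time-bounded analogues of the two questions have a negative answer for
all time bounds between `n + 2` and `o(n log n)`: the Dyck language with two kinds of brackets is
accepted by a deterministic one-way pushdown automaton with one head in `n + 2` steps, but every
two-way nondeterministic finite automaton with any number of heads, even with
`2 ^ (n ^ (1 - ε))` states for each input length `n`, needs `Ω(n log n)` steps.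
-/

set_option autoImplicit false

namespace Pool.Agent.Lib_helper16.Variants.TimeSeparation

open Pool.Agent.Heads Pool.Agent.Time

/-- `L` is accepted by a two-way deterministic multihead pushdown automaton in time `T`: every
word `w` in `L` has an accepting computation with at most `T |w|` steps. -/
def DPDATime (T : ℕ → ℕ) {α : Type} (L : Set (List α)) : Prop :=
  ∃ k, 1 ≤ k ∧ ∃ M : PDA α k, M.Det ∧ M.lang = L ∧
    ∀ w ∈ L, ∃ t ≤ T w.length, ∃ c, M.Reach w t c ∧ c.state ∈ M.accept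

/-- `L` is accepted by a two-way nondeterministic multihead finite automaton in time `T`: every
word `w` in `L` has an accepting computation with at most `T |w|` steps. -/
def NFATime (T : ℕ → ℕ) {α : Type} (L : Set (List α)) : Prop :=
  ∃ k, 1 ≤ k ∧ ∃ A : FA α k, A.lang = L ∧
    ∀ w ∈ L, ∃ t ≤ T w.length, ∃ c,
      ReachN (A.Step w) (A.start, fun _ => 0) t c ∧ c.1 ∈ A.accept

lemma bound_small (T : ℕ → ℕ) (hT : ∀ C : ℕ, ∃ N, ∀ n ≥ N, C * T n ≤ n * Nat.log 2 n)
    (hT0 : ∀ n, n + 2 ≤ T n) : ¬ NFATime T {w : List Br | IsDyck w} := by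
  rintro ⟨k, hk, A, hA, ht⟩
  have := A.finQ
  obtain ⟨s, hs⟩ : ∃ s, Nat.card A.Q ≤ 2 ^ s := ⟨Nat.card A.Q, Nat.lt_two_pow_self.le⟩
  obtain ⟨n₀, h0⟩ := lower_bound k 2 hk (by norm_num)
  obtain ⟨N, hN⟩ := hT (1000 * 2 * (k * k) + 1)
  set n := 2 * (n₀ + N + s * s + 1) with hn
  obtain ⟨w, hw1, hw2, hw3⟩ := h0 n (by omega) ⟨n₀ + N + s * s + 1, by omega⟩ A s
    (by rw [pow_two]; simp only [Nat.add_one_sub_one, pow_one]; omega) hs
    (fun w _ h => by rw [hA] at h; exact h)
  obtain ⟨t, h1, c, h2, h3⟩ := ht w hw2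
  rw [hw1] at h1
  have h4 := hw3 t c h2 h3
  have h5 := hN n (by omega)
  have h6 : 1000 * 2 * (k * k) * t ≤ 1000 * 2 * (k * k) * T n := Nat.mul_le_mul_left _ h1
  have h7 : (1000 * 2 * (k * k) + 1) * T n = 1000 * 2 * (k * k) * T n + T n := by ring
  have h8 := hT0 n
  omega

/-- (1) A deterministic one-way pushdown automaton with one head accepts the Dyck language in
`n + 2` steps. (2) For all `k, q ≥ 1`, if `n` is large and even and `A` is a two-way
nondeterministic `k`-head finite automaton with at most `2 ^ s` states, `s ≤ n ^ (1 - 1 / q)`,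
which accepts, among the words of length `n`, exactly the Dyck words, then on some Dyck word of
length `n` all accepting computations of `A` have at least `n ⌊log₂ n⌋ / (1000 q k ^ 2)` steps.
(3) So for `n + 2 ≤ T(n) = o(n log n)` the Dyck language is accepted by a two-way deterministic
multihead pushdown automaton in time `T`, but not by a two-way nondeterministic multihead finite
automaton in time `T`. -/
theorem result :
    (∃ M : PDA Br 1, M.Det ∧ M.lang = {w | IsDyck w} ∧
      (∀ w t c, M.Reach w t c → c.pos 0 = min t (w.length + 1) ∧ t ≤ w.length + 2) ∧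
      ∀ w, IsDyck w → ∃ c, M.Reach w (w.length + 2) c ∧ c.state ∈ M.accept) ∧
    (∀ k q : ℕ, 1 ≤ k → 1 ≤ q → ∃ n₀ : ℕ, ∀ n ≥ n₀, Even n → ∀ (A : FA Br k) (s : ℕ),
      s ^ q ≤ n ^ (q - 1) → Nat.card A.Q ≤ 2 ^ s →
      (∀ w : List Br, w.length = n → (w ∈ A.lang ↔ IsDyck w)) →
      ∃ w : List Br, w.length = n ∧ IsDyck w ∧ ∀ t c,
        ReachN (A.Step w) (A.start, fun _ => 0) t c → c.1 ∈ A.accept →
        n * Nat.log 2 n ≤ 1000 * q * (k * k) * t) ∧
    (∀ T : ℕ → ℕ, (∀ n, n + 2 ≤ T n) → (∀ C : ℕ, ∃ N, ∀ n ≥ N, C * T n ≤ n * Nat.log 2 n) →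
      DPDATime T {w : List Br | IsDyck w} ∧ ¬ NFATime T {w : List Br | IsDyck w}) := by
  refine ⟨⟨dyckPDA, dyckPDA_det, dyckPDA_lang, ?_, fun w hw => dyckPDA_accepts hw⟩, ?_, ?_⟩
  · intro w t c h
    refine ⟨dyckPDA_pos w t c h, ?_⟩
    rcases dyckPDA_reach w t c h with ⟨-, -, h2, -⟩ | ⟨-, -, h2, -⟩ <;> omega
  · intro k q hk hq
    obtain ⟨n₀, h0⟩ := lower_bound k q hk hq
    exact ⟨n₀, fun n hn hev A s hs hQ hA => h0 n hn hev A s hs hQ fun w hw => (hA w hw).1⟩
  · intro T h1 h2
    refine ⟨⟨1, le_rfl, dyckPDA, dyckPDA_det, dyckPDA_lang, ?_⟩, bound_small T h2 h1⟩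
    intro w hw
    obtain ⟨c, h3, h4⟩ := dyckPDA_accepts hw
    exact ⟨w.length + 2, h1 _, c, h3, h4⟩

end Pool.Agent.Lib_helper16.Variants.TimeSeparation
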